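import Mathlib
import Pool.Agent.Helper68.CO2.Liou

/-!
# Multiplication by a real number up to a small set (MP_36c81c_nt)
-/

set_option autoImplicit false

namespace Pool.Agent.Helper68.QA

open MeasureTheory Set Pool.Agent.Helper68.CO2

/-- Liouville's function at the integral part -/
noncomputable def FL (y : ℝ) : ℤˣ := lam ⌊y⌋₊

/-- multiplication by `ρ` multiplies `G` by `σ`, off a set of density `η` in every `[Y, 2 Y]` -/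
def Tr (G : ℝ → ℤˣ) (Ya Yb : ℝ) (ρ : ℝ) (σ : ℤˣ) (η : ℝ) (s : ℕ) : Prop :=
  ∀ Y : ℝ, Ya * 2 ^ s ≤ Y → Y * 2 ^ s ≤ Yb →
    volume {y : ℝ | y ∈ Icc Y (2 * Y) ∧ G (ρ * y) ≠ σ * G y} ≤ ENNReal.ofReal (η * Y)

variable {G : ℝ → ℤˣ} {Ya Yb ρ ρ' η η' : ℝ} {σ σ' : ℤˣ} {s s' t : ℕ}

theorem Tr.mono (h : Tr G Ya Yb ρ σ η s) (hs : s ≤ s') (hYa : 0 < Ya) :
    Tr G Ya Yb ρ σ η s' := by
  intro Y h1 h2
  have h3 : (2 : ℝ) ^ s ≤ 2 ^ s' := pow_le_pow_right₀ (by norm_num) hs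
  have h4 : 0 < Y := lt_of_lt_of_le (by positivity) h1
  exact h Y ((mul_le_mul_of_nonneg_left h3 hYa.le).trans h1)
    ((mul_le_mul_of_nonneg_left h3 h4.le).trans h2)

/-- scaling of the outer measure -/
theorem vol_scale {c A : ℝ} (hc : 0 < c) (hA : 0 ≤ A) {S T : Set ℝ}
    (h : ∀ y ∈ S, c * y ∈ T) (hT : volume T ≤ ENNReal.ofReal (c * A)) :
    volume S ≤ ENNReal.ofReal A := by
  have h1 : S ⊆ (fun y => c * y) ⁻¹' T := fun y hy => h y hy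
  refine (measure_mono h1).trans ?_
  rw [Real.volume_preimage_mul_left hc.ne']
  refine (mul_le_mul_right hT _).trans ?_
  rw [← ENNReal.ofReal_mul (abs_nonneg _), abs_of_pos (inv_pos.2 hc), ← mul_assoc,
    inv_mul_cancel₀ hc.ne', one_mul]

theorem Tr.mul (h : Tr G Ya Yb ρ σ η s) (h' : Tr G Ya Yb ρ' σ' η' s') (h1 : 1 ≤ ρ' * 2 ^ t)
    (h2 : ρ' ≤ 2 ^ t) (hYa : 0 < Ya) (hη : 0 ≤ η) (hη' : 0 ≤ η') :
    Tr G Ya Yb (ρ * ρ') (σ * σ') (η + η') (s + s' + t) := by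
  intro Y hY1 hY2
  have ht : (0 : ℝ) < 2 ^ t := by positivity
  have hs : (1 : ℝ) ≤ 2 ^ s := one_le_pow₀ (by norm_num)
  have hs' : (1 : ℝ) ≤ 2 ^ s' := one_le_pow₀ (by norm_num)
  have ht1 : (1 : ℝ) ≤ 2 ^ t := one_le_pow₀ (by norm_num)
  have hρ : 0 < ρ' := by
    by_contra hcon
    have : ρ' * 2 ^ t ≤ 0 := mul_nonpos_of_nonpos_of_nonneg (not_lt.1 hcon) ht.le
    linarith
  rw [pow_add, pow_add] at hY1 hY2
  have hY : 0 < Y := lt_of_lt_of_le (by positivity) hY1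
  have hsub : {y : ℝ | y ∈ Icc Y (2 * Y) ∧ G (ρ * ρ' * y) ≠ σ * σ' * G y} ⊆
      {y : ℝ | y ∈ Icc Y (2 * Y) ∧ G (ρ' * y) ≠ σ' * G y} ∪
      {y : ℝ | y ∈ Icc Y (2 * Y) ∧ G (ρ * (ρ' * y)) ≠ σ * G (ρ' * y)} := by
    rintro y ⟨hy, hG⟩
    by_cases h3 : G (ρ' * y) = σ' * G y
    · right
      refine ⟨hy, fun h4 => hG ?_⟩
      rw [mul_assoc ρ, h4, h3, mul_assoc]
    · left
      exact ⟨hy, h3⟩
  refine (measure_mono hsub).trans ((measure_union_le _ _).trans ?_)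
  have e1 : volume {y : ℝ | y ∈ Icc Y (2 * Y) ∧ G (ρ' * y) ≠ σ' * G y} ≤
      ENNReal.ofReal (η' * Y) := by
    refine h' Y (le_trans ?_ hY1) (le_trans ?_ hY2)
    · calc Ya * 2 ^ s' = Ya * (1 * 2 ^ s' * 1) := by ring
        _ ≤ Ya * (2 ^ s * 2 ^ s' * 2 ^ t) := by gcongr
    · calc Y * 2 ^ s' = Y * (1 * 2 ^ s' * 1) := by ring
        _ ≤ Y * (2 ^ s * 2 ^ s' * 2 ^ t) := by gcongr
  have e2 : volume {y : ℝ | y ∈ Icc Y (2 * Y) ∧ G (ρ * (ρ' * y)) ≠ σ * G (ρ' * y)} ≤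
      ENNReal.ofReal (η * Y) := by
    refine vol_scale hρ (by positivity)
      (T := {z : ℝ | z ∈ Icc (ρ' * Y) (2 * (ρ' * Y)) ∧ G (ρ * z) ≠ σ * G z}) ?_ ?_
    · rintro y ⟨⟨hy1, hy2⟩, hG⟩
      refine ⟨⟨mul_le_mul_of_nonneg_left hy1 hρ.le, ?_⟩, hG⟩
      have := mul_le_mul_of_nonneg_left hy2 hρ.le
      linarith
    · refine (h (ρ' * Y) ?_ ?_).trans (le_of_eq (by congr 1; ring))
      · have h5 : Ya * 2 ^ s * 2 ^ t ≤ Y := by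
          refine le_trans ?_ hY1
          calc Ya * 2 ^ s * 2 ^ t = Ya * (2 ^ s * 1 * 2 ^ t) := by ring
            _ ≤ Ya * (2 ^ s * 2 ^ s' * 2 ^ t) := by gcongr
        have h6 : Ya * 2 ^ s ≤ Ya * 2 ^ s * (ρ' * 2 ^ t) :=
          le_mul_of_one_le_right (by positivity) h1
        calc Ya * 2 ^ s ≤ Ya * 2 ^ s * (ρ' * 2 ^ t) := h6
          _ = ρ' * (Ya * 2 ^ s * 2 ^ t) := by ring
          _ ≤ ρ' * Y := mul_le_mul_of_nonneg_left h5 hρ.le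
      · calc ρ' * Y * 2 ^ s ≤ 2 ^ t * Y * 2 ^ s := by gcongr
          _ = Y * (2 ^ s * 1 * 2 ^ t) := by ring
          _ ≤ Y * (2 ^ s * 2 ^ s' * 2 ^ t) := by gcongr
          _ ≤ Yb := hY2
  refine (add_le_add e1 e2).trans ?_
  rw [← ENNReal.ofReal_add (by positivity) (by positivity)]
  exact ENNReal.ofReal_le_ofReal (le_of_eq (by ring))

theorem Tr.inv (h : Tr G Ya Yb ρ σ η s) (h1 : 1 ≤ ρ * 2 ^ t) (h2 : ρ ≤ 2 ^ t) (hYa : 0 < Ya)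
    (hη : 0 ≤ η) : Tr G Ya Yb ρ⁻¹ σ η (s + t) := by
  intro Y hY1 hY2
  have ht : (0 : ℝ) < 2 ^ t := by positivity
  have hρ : 0 < ρ := by
    by_contra hcon
    have : ρ * 2 ^ t ≤ 0 := mul_nonpos_of_nonpos_of_nonneg (not_lt.1 hcon) ht.le
    linarith
  rw [pow_add] at hY1 hY2
  have hY : 0 < Y := lt_of_lt_of_le (by positivity) hY1
  refine vol_scale (inv_pos.2 hρ) (by positivity)
    (T := {z : ℝ | z ∈ Icc (ρ⁻¹ * Y) (2 * (ρ⁻¹ * Y)) ∧ G (ρ * z) ≠ σ * G z}) ?_ ?_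
  · rintro y ⟨⟨hy1, hy2⟩, hG⟩
    refine ⟨⟨mul_le_mul_of_nonneg_left hy1 (inv_pos.2 hρ).le, ?_⟩, fun h3 => hG ?_⟩
    · have := mul_le_mul_of_nonneg_left hy2 (inv_pos.2 hρ).le
      linarith
    · rw [mul_inv_cancel_left₀ hρ.ne'] at h3
      rw [h3, ← mul_assoc, Int.units_mul_self, one_mul]
  · refine (h (ρ⁻¹ * Y) ?_ ?_).trans (le_of_eq (by congr 1; ring))
    · rw [le_inv_mul_iff₀ hρ]
      calc ρ * (Ya * 2 ^ s) ≤ 2 ^ t * (Ya * 2 ^ s) := by gcongr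
        _ = Ya * (2 ^ s * 2 ^ t) := by ring
        _ ≤ Y := hY1
    · have h4 : ρ⁻¹ ≤ 2 ^ t := by
        rw [inv_le_iff_one_le_mul₀ hρ]
        linarith
      calc ρ⁻¹ * Y * 2 ^ s ≤ 2 ^ t * Y * 2 ^ s := by gcongr
        _ = Y * (2 ^ s * 2 ^ t) := by ring
        _ ≤ Yb := hY2

end Pool.Agent.Helper68.QA
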