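import Mathlib
import Pool.Agent.Helper68.QA.Tr

/-!
# Iterated quotients and differences (MP_36c81c_nt)
-/

set_option autoImplicit false

namespace Pool.Agent.Helper68.QA

open MeasureTheory Set Pool.Agent.Helper68.CO2

/-- the iterated difference of `1 / x` -/
noncomputable def dd : ℕ → ℝ → ℝ
  | 0, x => 1 / x
  | k + 1, x => dd k (x + 1) - dd k x

/-- the iterated difference of `log` -/
noncomputable def gg : ℕ → ℝ → ℝ
  | 0, x => Real.log x
  | k + 1, x => gg k (x + 1) - gg k x

/-- the iterated quotients -/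
noncomputable def rho : ℕ → ℕ → ℝ
  | 0, n => n
  | k + 1, n => rho k (n + 1) / rho k n

/-- the signs -/
def sg : ℕ → ℕ → ℤˣ
  | 0, n => lam n
  | k + 1, n => sg k (n + 1) * sg k n

theorem dd_eq (k : ℕ) : ∀ x : ℝ, 0 < x →
    dd k x = (-1) ^ k * k.factorial / ∏ j ∈ Finset.range (k + 1), (x + j) := by
  induction k with
  | zero =>
    intro x _
    simp [dd]
  | succ k ih =>
    intro x hx
    have hpos : ∀ y : ℝ, 0 < y → ∀ m : ℕ, 0 < ∏ j ∈ Finset.range m, (y + j) := fun y hy m =>
      Finset.prod_pos fun j _ => by positivity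
    rw [dd, ih _ (by linarith), ih _ hx]
    have e1 : ∏ j ∈ Finset.range (k + 2), (x + j) =
        (∏ j ∈ Finset.range (k + 1), (x + 1 + j)) * x := by
      rw [Finset.prod_range_succ']
      congr 1
      · refine Finset.prod_congr rfl fun j _ => ?_
        push_cast
        ring
      · simp
    have e2 : ∏ j ∈ Finset.range (k + 2), (x + j) =
        (∏ j ∈ Finset.range (k + 1), (x + j)) * (x + (k + 1 : ℕ)) := Finset.prod_range_succ _ _
    have p1 := hpos (x + 1) (by linarith) (k + 1)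
    have p2 := hpos x hx (k + 1)
    have p3 := hpos x hx (k + 2)
    have p4 : 0 < x + (k + 1 : ℕ) := by positivity
    have f1 : (-1 : ℝ) ^ k * k.factorial / ∏ j ∈ Finset.range (k + 1), (x + 1 + j) =
        (-1) ^ k * k.factorial * x / ∏ j ∈ Finset.range (k + 2), (x + j) := by
      rw [e1, mul_div_mul_right _ _ hx.ne']
    have f2 : (-1 : ℝ) ^ k * k.factorial / ∏ j ∈ Finset.range (k + 1), (x + j) =
        (-1) ^ k * k.factorial * (x + (k + 1 : ℕ)) / ∏ j ∈ Finset.range (k + 2), (x + j) := by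
      rw [e2, mul_div_mul_right _ _ p4.ne']
    rw [f1, f2, ← sub_div, Nat.factorial_succ]
    congr 1
    push_cast
    ring

theorem dd_abs (k : ℕ) {x : ℝ} (hx : 0 < x) : |dd k x| ≤ k.factorial / x ^ (k + 1) := by
  have hpos : 0 < ∏ j ∈ Finset.range (k + 1), (x + j) :=
    Finset.prod_pos fun j _ => by positivity
  rw [dd_eq k x hx, abs_div, abs_mul, abs_pow, abs_neg, abs_one, one_pow, one_mul,
    Nat.abs_cast, abs_of_pos hpos]
  refine div_le_div_of_nonneg_left (by positivity) (by positivity) ?_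
  calc x ^ (k + 1) = ∏ _j ∈ Finset.range (k + 1), x := by
        rw [Finset.prod_const, Finset.card_range]
    _ ≤ ∏ j ∈ Finset.range (k + 1), (x + j) :=
        Finset.prod_le_prod (fun _ _ => hx.le) fun j _ => by
          have : (0 : ℝ) ≤ j := Nat.cast_nonneg j
          linarith

theorem gg_deriv (k : ℕ) : ∀ x : ℝ, 0 < x → HasDerivAt (gg k) (dd k x) x := by
  induction k with
  | zero =>
    intro x hx
    have h := Real.hasDerivAt_log hx.ne'
    rw [← one_div] at h
    exact h
  | succ k ih =>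
    intro x hx
    have h1 : HasDerivAt (fun y => gg k (y + 1)) (dd k (x + 1)) x := by
      have h2 := (ih (x + 1) (by linarith)).comp_add_const x 1
      exact h2
    exact h1.sub (ih x hx)

theorem gg_abs (k : ℕ) {x : ℝ} (hx : 0 < x) : |gg (k + 1) x| ≤ k.factorial / x ^ (k + 1) := by
  obtain ⟨c, ⟨hc1, _⟩, hc3⟩ := exists_hasDerivAt_eq_slope (gg k) (dd k) (lt_add_one x)
    (fun y hy => (gg_deriv k y (lt_of_lt_of_le hx hy.1)).continuousAt.continuousWithinAt)
    (fun y hy => gg_deriv k y (lt_trans hx hy.1))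
  rw [add_sub_cancel_left, div_one] at hc3
  have h1 : gg (k + 1) x = dd k c := hc3.symm
  rw [h1]
  refine (dd_abs k (lt_trans hx hc1)).trans ?_
  exact div_le_div_of_nonneg_left (by positivity) (by positivity)
    (pow_le_pow_left₀ hx.le hc1.le _)

theorem rho_exp (k : ℕ) : ∀ n : ℕ, 0 < n → rho k n = Real.exp (gg k n) := by
  induction k with
  | zero =>
    intro n hn
    have h1 : (0 : ℝ) < n := by exact_mod_cast hn
    rw [rho, gg, Real.exp_log h1]
  | succ k ih =>
    intro n hn
    rw [rho, gg, ih _ (Nat.succ_pos n), ih _ hn, Real.exp_sub]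
    push_cast
    rfl

theorem rho_close (k : ℕ) {n : ℕ} (hn : 0 < n) (h : (k.factorial : ℝ) ≤ (n : ℝ) ^ (k + 1)) :
    |rho (k + 1) n - 1| ≤ 2 * k.factorial / (n : ℝ) ^ (k + 1) := by
  have hn' : (0 : ℝ) < n := by exact_mod_cast hn
  rw [rho_exp _ n hn]
  have h1 := gg_abs k hn'
  have h2 : (k.factorial : ℝ) / (n : ℝ) ^ (k + 1) ≤ 1 := by
    rw [div_le_one (by positivity)]
    exact h
  have h3 := Real.abs_exp_sub_one_le (h1.trans h2)
  refine h3.trans ?_
  rw [mul_div_assoc]
  linarith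

/-- iterated sign operator -/
def TT : ℕ → (ℕ → ℤˣ) → ℕ → ℤˣ
  | 0, f, n => f n
  | k + 1, f, n => TT k f (n + 1) * TT k f n

theorem TT_add (k l : ℕ) (f : ℕ → ℤˣ) : ∀ n, TT (k + l) f n = TT k (TT l f) n := by
  induction k with
  | zero =>
    intro n
    rw [zero_add, TT]
  | succ k ih =>
    intro n
    rw [Nat.succ_add, TT, TT, ih, ih]

theorem TT_two (a : ℕ) : ∀ (f : ℕ → ℤˣ) (n : ℕ), TT (2 ^ a) f n = f (n + 2 ^ a) * f n := by
  induction a with
  | zero =>
    intro f n
    rfl
  | succ a ih =>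
    intro f n
    rw [pow_succ, mul_two, TT_add, ih, ih, ih, add_assoc]
    have h : f (n + 2 ^ a) * f (n + 2 ^ a) = 1 := Int.units_mul_self _
    calc f (n + (2 ^ a + 2 ^ a)) * f (n + 2 ^ a) * (f (n + 2 ^ a) * f n) =
        f (n + (2 ^ a + 2 ^ a)) * (f (n + 2 ^ a) * f (n + 2 ^ a)) * f n := by
          simp only [mul_assoc]
      _ = _ := by rw [h, mul_one]

theorem sg_TT (k : ℕ) : ∀ n, sg k n = TT k lam n := by
  induction k with
  | zero =>
    intro n
    rw [sg, TT]
  | succ k ih =>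
    intro n
    rw [sg, TT, ih, ih]

theorem sg_two (a n : ℕ) : sg (2 ^ a) n = lam (n + 2 ^ a) * lam n := by
  rw [sg_TT, TT_two]

end Pool.Agent.Helper68.QA
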