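import Mathlib
import Pool.Agent.Helper68.QA.Diff

/-!
# The elementary contradiction (MP_36c81c_nt)
-/

set_option autoImplicit false

namespace Pool.Agent.Helper68.QA

open MeasureTheory Set Pool.Agent.Helper68.CO2

variable {G : ℝ → ℤˣ} {Ya Yb η : ℝ}

/-- quotients of two integers of `[M / 2, M]` -/
theorem base_quot {M : ℕ} {n n' : ℕ} (hn : M ≤ 2 * n) (hnM : n ≤ M) (hn' : M ≤ 2 * n')
    (hn'M : n' ≤ M) (hM : 0 < M) (hYa : 0 < Ya) (hη : 0 ≤ η)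
    (h : ∀ n : ℕ, M ≤ 2 * n → n ≤ M → ∀ Y : ℝ, Ya ≤ Y → Y ≤ Yb →
      volume {y : ℝ | y ∈ Icc Y (2 * Y) ∧ G (n * y) ≠ lam n * G y} ≤ ENNReal.ofReal (η * Y)) :
    Tr G (Ya * M) Yb ((n : ℝ) / n') (lam n * lam n') (2 * η) 0 := by
  intro Y h1 h2
  rw [pow_zero, mul_one] at h1 h2
  have hM' : (0 : ℝ) < M := by exact_mod_cast hM
  have hY : 0 < Y := lt_of_lt_of_le (by positivity) h1
  have hn0 : (0 : ℝ) < n' := by
    have : 0 < n' := by omega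
    exact_mod_cast this
  have hn1 : (1 : ℝ) ≤ n' := by
    have : 1 ≤ n' := by omega
    exact_mod_cast this
  have hb1 : Ya ≤ (n' : ℝ)⁻¹ * Y := by
    rw [le_inv_mul_iff₀ hn0]
    refine le_trans ?_ h1
    rw [mul_comm]
    exact mul_le_mul_of_nonneg_left (by exact_mod_cast hn'M) hYa.le
  have hb2 : (n' : ℝ)⁻¹ * Y ≤ Yb := by
    refine le_trans ?_ h2
    have : (n' : ℝ)⁻¹ ≤ 1 := inv_le_one_of_one_le₀ hn1
    calc (n' : ℝ)⁻¹ * Y ≤ 1 * Y := mul_le_mul_of_nonneg_right this hY.le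
      _ = Y := one_mul _
  refine vol_scale (inv_pos.2 hn0) (by positivity)
    (T := {z : ℝ | z ∈ Icc ((n' : ℝ)⁻¹ * Y) (2 * ((n' : ℝ)⁻¹ * Y)) ∧ G (n * z) ≠ lam n * G z} ∪
      {z : ℝ | z ∈ Icc ((n' : ℝ)⁻¹ * Y) (2 * ((n' : ℝ)⁻¹ * Y)) ∧ G (n' * z) ≠ lam n' * G z})
    ?_ ?_
  · rintro y ⟨⟨hy1, hy2⟩, hG⟩
    have hmem : (n' : ℝ)⁻¹ * y ∈ Icc ((n' : ℝ)⁻¹ * Y) (2 * ((n' : ℝ)⁻¹ * Y)) := by
      refine ⟨mul_le_mul_of_nonneg_left hy1 (inv_pos.2 hn0).le, ?_⟩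
      have := mul_le_mul_of_nonneg_left hy2 (inv_pos.2 hn0).le
      linarith
    by_cases h3 : G (n * ((n' : ℝ)⁻¹ * y)) = lam n * G ((n' : ℝ)⁻¹ * y)
    · right
      refine ⟨hmem, fun h4 => hG ?_⟩
      rw [mul_inv_cancel_left₀ hn0.ne'] at h4
      rw [div_eq_mul_inv, mul_assoc, h3, h4]
      rw [mul_assoc, ← mul_assoc (lam n') (lam n'), Int.units_mul_self, one_mul]
    · left
      exact ⟨hmem, h3⟩
  · refine (measure_union_le _ _).trans ((add_le_add (h n hn hnM _ hb1 hb2)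
      (h n' hn' hn'M _ hb1 hb2)).trans ?_)
    rw [← ENNReal.ofReal_add (by positivity) (by positivity)]
    exact ENNReal.ofReal_le_ofReal (le_of_eq (by ring))

/-- the iterated quotients -/
theorem tr_rho {M : ℕ} (hM : 0 < M) (hYa : 0 < Ya) (hη : 0 ≤ η)
    (h : ∀ n : ℕ, M ≤ 2 * n → n ≤ M → ∀ Y : ℝ, Ya ≤ Y → Y ≤ Yb →
      volume {y : ℝ | y ∈ Icc Y (2 * Y) ∧ G (n * y) ≠ lam n * G y} ≤ ENNReal.ofReal (η * Y))
    (k : ℕ) : ∀ n : ℕ, M ≤ 2 * n → n + (k + 1) ≤ M →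
      Tr G (Ya * M) Yb (rho (k + 1) n) (sg (k + 1) n) (2 ^ (k + 1) * η) (4 ^ (k + 1)) ∧
        1 ≤ rho (k + 1) n * 2 ^ (2 ^ k) ∧ rho (k + 1) n ≤ 2 ^ (2 ^ k) := by
  have hM' : (0 : ℝ) < M := by exact_mod_cast hM
  induction k with
  | zero =>
    intro n hn hnM
    have hn0 : (0 : ℝ) < n := by
      have : 0 < n := by omega
      exact_mod_cast this
    have hn1 : (1 : ℝ) ≤ n := by
      have : 1 ≤ n := by omega
      exact_mod_cast this
    refine ⟨?_, ?_, ?_⟩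
    · have h1 := base_quot (Yb := Yb) (n := n + 1) (n' := n) (by omega) (by omega) hn (by omega)
        hM hYa hη h
      have h2 := h1.mono (Nat.zero_le (4 ^ 1)) (by positivity)
      rw [zero_add, pow_one]
      exact h2
    · rw [rho, rho, rho, pow_zero, pow_one, div_mul_eq_mul_div, le_div_iff₀ hn0]
      push_cast
      linarith
    · rw [rho, rho, rho, pow_zero, pow_one, div_le_iff₀ hn0]
      push_cast
      linarith
  | succ k ih =>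
    intro n hn hnM
    obtain ⟨a1, a2, a3⟩ := ih n hn (by omega)
    obtain ⟨b1, b2, b3⟩ := ih (n + 1) (by omega) (by omega)
    have hρ : 0 < rho (k + 1) n := by
      rw [rho_exp _ n (by omega)]
      exact Real.exp_pos _
    have e0 : (2 : ℝ) ^ (2 ^ (k + 1)) = 2 ^ (2 ^ k) * 2 ^ (2 ^ k) := by
      rw [pow_succ, mul_two, pow_add]
    have hp : (0 : ℝ) < 2 ^ (2 ^ k) := by positivity
    have a4 : 1 ≤ (rho (k + 1) n)⁻¹ * 2 ^ (2 ^ k) := by
      rw [le_inv_mul_iff₀ hρ, mul_one]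
      exact a3
    have a5 : (rho (k + 1) n)⁻¹ ≤ 2 ^ (2 ^ k) := by
      rw [inv_le_iff_one_le_mul₀ hρ]
      linarith
    refine ⟨?_, ?_, ?_⟩
    · have h1 := a1.inv a2 a3 (by positivity) (by positivity)
      have h2 := b1.mul h1 a4 a5 (by positivity) (by positivity) (by positivity)
      have h3 : rho (k + 1 + 1) n = rho (k + 1) (n + 1) * (rho (k + 1) n)⁻¹ := by
        rw [rho, div_eq_mul_inv]
      have h4 : sg (k + 1 + 1) n = sg (k + 1) (n + 1) * sg (k + 1) n := rfl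
      rw [h3, h4]
      have h5 : 2 ^ (k + 1 + 1) * η = 2 ^ (k + 1) * η + 2 ^ (k + 1) * η := by ring
      rw [h5]
      refine h2.mono ?_ (by positivity)
      have h6 : 2 ^ k ≤ 4 ^ k := Nat.pow_le_pow_left (by norm_num) k
      have h7 : 4 ^ (k + 1 + 1) = 16 * 4 ^ k := by ring
      have h8 : 4 ^ (k + 1) = 4 * 4 ^ k := by ring
      omega
    · rw [rho, div_eq_mul_inv, e0]
      have : 1 * 1 ≤ (rho (k + 1) (n + 1) * 2 ^ (2 ^ k)) * ((rho (k + 1) n)⁻¹ * 2 ^ (2 ^ k)) :=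
        mul_le_mul b2 a4 zero_le_one (by linarith)
      calc (1 : ℝ) = 1 * 1 := (one_mul 1).symm
        _ ≤ _ := this
        _ = _ := by ring
    · rw [rho, div_eq_mul_inv, e0]
      exact mul_le_mul b3 a5 (inv_pos.2 hρ).le hp.le

/-- the integral part near an integer -/
theorem vol_floor {Y τ : ℝ} (hY : 1 ≤ Y) (hτ : 0 ≤ τ) {ρ : ℝ}
    (h : ∀ y : ℝ, y ∈ Icc Y (2 * Y) → |ρ * y - y| ≤ τ) (hτ1 : τ ≤ 1) :
    volume {y : ℝ | y ∈ Icc Y (2 * Y) ∧ ⌊ρ * y⌋₊ ≠ ⌊y⌋₊} ≤ ENNReal.ofReal (10 * τ * Y) := by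
  have hsub : {y : ℝ | y ∈ Icc Y (2 * Y) ∧ ⌊ρ * y⌋₊ ≠ ⌊y⌋₊} ⊆
      ⋃ m ∈ Finset.Icc (⌊Y⌋₊) (⌊2 * Y⌋₊ + 1), Icc ((m : ℝ) - τ) (m + τ) := by
    rintro y ⟨⟨hy1, hy2⟩, hne⟩
    have h1 := abs_le.1 (h y ⟨hy1, hy2⟩)
    have hy0 : 0 ≤ y := by linarith
    rw [mem_iUnion₂]
    rcases lt_or_gt_of_ne hne with h2 | h2
    · -- floor (ρ y) < floor y : the integer floor y is in [y - τ, y]
      refine ⟨⌊y⌋₊, ?_, ?_⟩
      · rw [Finset.mem_Icc]
        exact ⟨Nat.floor_mono hy1, (Nat.floor_mono hy2).trans (Nat.le_succ _)⟩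
      · have h3 : (⌊y⌋₊ : ℝ) ≤ y := Nat.floor_le hy0
        have h4 : ρ * y < ⌊y⌋₊ := by
          by_contra hcon
          exact absurd (Nat.le_floor (not_lt.1 hcon)) (not_le.2 h2)
        constructor <;> linarith
    · refine ⟨⌊ρ * y⌋₊, ?_, ?_⟩
      · rw [Finset.mem_Icc]
        refine ⟨(Nat.floor_mono hy1).trans h2.le, ?_⟩
        have h5 : ρ * y ≤ 2 * Y + 1 := by linarith
        refine (Nat.floor_mono h5).trans ?_
        rw [Nat.floor_add_one (by linarith)]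
      · have h3 : y < ⌊ρ * y⌋₊ := by
          by_contra hcon
          exact absurd (Nat.le_floor (not_lt.1 hcon)) (not_le.2 h2)
        have h6 : 0 ≤ ρ * y := by
          by_contra hcon
          have h7 : ⌊ρ * y⌋₊ = 0 := Nat.floor_of_nonpos (not_le.1 hcon).le
          rw [h7] at h3
          norm_num at h3
          linarith
        have h4 : (⌊ρ * y⌋₊ : ℝ) ≤ ρ * y := Nat.floor_le h6
        constructor <;> linarith
  refine (measure_mono hsub).trans ((measure_biUnion_finset_le _ _).trans ?_)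
  have h1 : ∀ m : ℕ, volume (Icc ((m : ℝ) - τ) (m + τ)) = ENNReal.ofReal (2 * τ) := by
    intro m
    rw [Real.volume_Icc]
    congr 1
    ring
  simp only [h1]
  rw [Finset.sum_const, Nat.card_Icc, nsmul_eq_mul, ← ENNReal.ofReal_natCast,
    ← ENNReal.ofReal_mul (Nat.cast_nonneg _)]
  refine ENNReal.ofReal_le_ofReal ?_
  have h2 : ((⌊2 * Y⌋₊ + 1 + 1 - ⌊Y⌋₊ : ℕ) : ℝ) ≤ 5 * Y := by
    have h3 : (⌊2 * Y⌋₊ : ℝ) ≤ 2 * Y := Nat.floor_le (by linarith)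
    have h4 : 1 ≤ ⌊Y⌋₊ := Nat.le_floor (by exact_mod_cast hY)
    have h5 : ⌊2 * Y⌋₊ + 1 + 1 - ⌊Y⌋₊ ≤ ⌊2 * Y⌋₊ + 1 := by omega
    have h6 : ((⌊2 * Y⌋₊ + 1 + 1 - ⌊Y⌋₊ : ℕ) : ℝ) ≤ (⌊2 * Y⌋₊ : ℝ) + 1 := by exact_mod_cast h5
    linarith
  calc ((⌊2 * Y⌋₊ + 1 + 1 - ⌊Y⌋₊ : ℕ) : ℝ) * (2 * τ) ≤ 5 * Y * (2 * τ) :=
        mul_le_mul_of_nonneg_right h2 (by positivity)
    _ = 10 * τ * Y := by ring

/-- Liouville's function is not periodic -/
theorem no_period {k M : ℕ} (hk : 0 < k) (hM : 20 * k ≤ M)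
    (h : ∀ n : ℕ, M ≤ 2 * n → n + k ≤ M → lam (n + k) = lam n) : False := by
  obtain ⟨T, hT⟩ : ∃ T, T = M / k := ⟨_, rfl⟩
  have hT1 : k * T ≤ M := hT ▸ Nat.mul_div_le M k
  have hT2 : M < k * (T + 1) := hT ▸ Nat.lt_mul_div_succ M hk
  have hT20 : 20 ≤ T := by
    rw [hT, Nat.le_div_iff_mul_le hk]
    exact hM
  have step : ∀ n : ℕ, T + 1 ≤ 2 * n → n + 1 ≤ T → lam (n + 1) = lam n := by
    intro n h1 h2
    have h3 := h (k * n) (by nlinarith) (by nlinarith)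
    have h4 : k * n + k = k * (n + 1) := by ring
    rw [h4, cm_lam k (n + 1) hk.ne' (by omega), cm_lam k n hk.ne' (by omega)] at h3
    exact mul_left_cancel h3
  have chain : ∀ d n : ℕ, T + 1 ≤ 2 * n → n + d ≤ T → lam (n + d) = lam n := by
    intro d
    induction d with
    | zero =>
      intro n _ _
      rfl
    | succ d ih =>
      intro n h1 h2
      rw [← add_assoc, step (n + d) (by omega) (by omega), ih n h1 (by omega)]
  have const : ∀ m n : ℕ, T + 1 ≤ 2 * m → m ≤ T → T + 1 ≤ 2 * n → n ≤ T → lam m = lam n := by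
    intro m n h1 h2 h3 h4
    rcases le_total m n with h5 | h5
    · obtain ⟨d, rfl⟩ := Nat.exists_eq_add_of_le h5
      exact (chain d m h1 h4).symm
    · obtain ⟨d, rfl⟩ := Nat.exists_eq_add_of_le h5
      exact chain d n h3 h2
  obtain ⟨w, hw1, hw2⟩ : ∃ w : ℕ, w * w ≤ T ∧ T < (w + 1) * (w + 1) :=
    ⟨Nat.sqrt T, Nat.sqrt_le T, Nat.lt_succ_sqrt T⟩
  obtain ⟨v, hv1, hv2⟩ : ∃ v : ℕ, v * v ≤ T / 2 ∧ T / 2 < (v + 1) * (v + 1) :=
    ⟨Nat.sqrt (T / 2), Nat.sqrt_le _, Nat.lt_succ_sqrt _⟩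
  have hw3 : 3 ≤ w := by
    by_contra hcon
    have : w ≤ 2 := by omega
    have : (w + 1) * (w + 1) ≤ 3 * 3 := Nat.mul_le_mul (by omega) (by omega)
    omega
  have hv3 : 3 ≤ v := by
    by_contra hcon
    have : v ≤ 2 := by omega
    have : (v + 1) * (v + 1) ≤ 3 * 3 := Nat.mul_le_mul (by omega) (by omega)
    omega
  have h1 := const (w * w) (2 * (v * v)) (by nlinarith) hw1 (by
    have h5 : T ≤ 2 * (T / 2) + 1 := by omega
    nlinarith) (by omega)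
  have h2 : lam (w * w) = 1 := by
    rw [cm_lam w w (by omega) (by omega), Int.units_mul_self]
  have h3 : lam (2 * (v * v)) = -1 := by
    have hv0 : v * v ≠ 0 := by
      have : 0 < v * v := Nat.mul_pos (by omega) (by omega)
      omega
    rw [cm_lam 2 (v * v) (by norm_num) hv0, lam_prime Nat.prime_two,
      cm_lam v v (by omega) (by omega), Int.units_mul_self, mul_one]
  rw [h2, h3] at h1
  exact absurd h1 (by decide)

theorem core (a : ℕ) : ∃ (C : ℝ) (M0 : ℕ), 1 ≤ C ∧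
    ∀ (M : ℕ) (Ya Yb η : ℝ), M0 ≤ M → 1 ≤ Ya → Ya * M * C ≤ Yb → Yb * C ≤ (M : ℝ) ^ (2 ^ a) →
      η * C ≤ 1 →
      ¬ (∀ n : ℕ, M ≤ 2 * n → n ≤ M → ∀ Y : ℝ, Ya ≤ Y → Y ≤ Yb →
        volume {y : ℝ | y ∈ Icc Y (2 * Y) ∧ FL (n * y) ≠ lam n * FL y} ≤
          ENNReal.ofReal (η * Y)) := by
  obtain ⟨k, hk⟩ : ∃ k, 2 ^ a = k + 1 := ⟨2 ^ a - 1, by
    have : 0 < 2 ^ a := by positivity
    omega⟩
  obtain ⟨f, hf⟩ : ∃ f : ℝ, f = k.factorial := ⟨_, rfl⟩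
  have hf1 : 1 ≤ f := by
    rw [hf]
    exact_mod_cast Nat.succ_le_of_lt (Nat.factorial_pos k)
  obtain ⟨u, hu⟩ : ∃ u : ℝ, u = 2 ^ (k + 1) := ⟨_, rfl⟩
  have hu1 : 1 ≤ u := hu ▸ one_le_pow₀ (by norm_num)
  obtain ⟨v, hv⟩ : ∃ v : ℝ, v = 2 ^ (4 ^ (k + 1)) := ⟨_, rfl⟩
  have hv1 : 1 ≤ v := hv ▸ one_le_pow₀ (by norm_num)
  refine ⟨v * v + 160 * u * f + 4 * u, 20 * (k + 1), by nlinarith, ?_⟩
  intro M Ya Yb η0 hM hYa hYb hYbM hη0 h0
  obtain ⟨C, hC⟩ : ∃ C : ℝ, C = v * v + 160 * u * f + 4 * u := ⟨_, rfl⟩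
  rw [← hC] at hYb hYbM hη0
  have huf : 0 ≤ u * f := by positivity
  have hvv : 0 ≤ v * v := by positivity
  have hC1 : v * v ≤ C := by rw [hC]; nlinarith
  have hC2 : 160 * u * f ≤ C := by rw [hC]; nlinarith
  have hC3 : 4 * u ≤ C := by rw [hC]; nlinarith
  have hC0 : 0 < C := by linarith
  -- a nonnegative density
  obtain ⟨η, hη⟩ : ∃ η : ℝ, η = max η0 0 := ⟨_, rfl⟩
  have hη1 : 0 ≤ η := hη ▸ le_max_right _ _
  have hη2 : η * C ≤ 1 := by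
    rw [hη]
    rcases le_total η0 0 with h1 | h1
    · rw [max_eq_right h1, zero_mul]
      exact zero_le_one
    · rw [max_eq_left h1]
      exact hη0
  have h : ∀ n : ℕ, M ≤ 2 * n → n ≤ M → ∀ Y : ℝ, Ya ≤ Y → Y ≤ Yb →
      volume {y : ℝ | y ∈ Icc Y (2 * Y) ∧ FL (n * y) ≠ lam n * FL y} ≤
        ENNReal.ofReal (η * Y) := by
    intro n h1 h2 Y h3 h4
    refine (h0 n h1 h2 Y h3 h4).trans (ENNReal.ofReal_le_ofReal ?_)
    exact mul_le_mul_of_nonneg_right (hη ▸ le_max_left _ _) (by linarith)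
  have hMpos : 0 < M := by omega
  have hM' : (0 : ℝ) < M := by exact_mod_cast hMpos
  have hM1 : (1 : ℝ) ≤ M := by exact_mod_cast hMpos
  have hYaM : 1 ≤ Ya * M := by nlinarith
  refine no_period (k := k + 1) (M := M) (Nat.succ_pos k) hM fun n hn hnM => ?_
  obtain ⟨c1, -, -⟩ := tr_rho (Yb := Yb) hMpos (by linarith : (0 : ℝ) < Ya) hη1 h k n hn hnM
  obtain ⟨Y, hY⟩ : ∃ Y : ℝ, Y = Ya * M * 2 ^ (4 ^ (k + 1)) := ⟨_, rfl⟩
  have hYv : Y = Ya * M * v := by rw [hY, hv]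
  have hY1 : 1 ≤ Y := by rw [hYv]; nlinarith
  have hYle : Y * v ≤ Yb := by
    refine le_trans ?_ hYb
    rw [hYv]
    calc Ya * M * v * v = Ya * M * (v * v) := by ring
      _ ≤ Ya * M * C := by gcongr
  have hYb' : Y ≤ Yb := by nlinarith
  have hYb0 : 0 ≤ Yb := by linarith
  have c2 := c1 Y hY.ge (by rw [← hv]; exact hYle)
  have c3 : (2 : ℝ) ^ (k + 1) * η * Y ≤ Y / 4 := by
    rw [← hu]
    have : u * η ≤ 1 / 4 := by nlinarith
    nlinarith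
  have hn0 : 0 < n := by omega
  have hn' : (0 : ℝ) < n := by exact_mod_cast hn0
  have hMn : (M : ℝ) ≤ 2 * n := by exact_mod_cast hn
  have hpow : (M : ℝ) ^ (k + 1) ≤ u * (n : ℝ) ^ (k + 1) := by
    rw [hu, ← mul_pow]
    exact pow_le_pow_left₀ hM'.le hMn _
  rw [hk] at hYbM
  have hnk : (0 : ℝ) < (n : ℝ) ^ (k + 1) := by positivity
  have hbig : 160 * f * Y ≤ (n : ℝ) ^ (k + 1) := by
    have h1 : Y * (160 * u * f) ≤ u * (n : ℝ) ^ (k + 1) := by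
      refine le_trans ?_ hpow
      refine le_trans ?_ hYbM
      calc Y * (160 * u * f) ≤ Yb * C := by gcongr
        _ = Yb * C := rfl
    have h2 : u * (160 * f * Y) ≤ u * (n : ℝ) ^ (k + 1) := by
      calc u * (160 * f * Y) = Y * (160 * u * f) := by ring
        _ ≤ _ := h1
    exact le_of_mul_le_mul_left h2 (by linarith)
  have hfac : (k.factorial : ℝ) ≤ (n : ℝ) ^ (k + 1) := by
    rw [← hf]
    nlinarith
  have hclose := rho_close k hn0 hfac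
  rw [← hf] at hclose
  have hτ : ∀ y : ℝ, y ∈ Icc Y (2 * Y) → |rho (k + 1) n * y - y| ≤ 1 / 40 := by
    rintro y ⟨hy1, hy2⟩
    have h1 : rho (k + 1) n * y - y = (rho (k + 1) n - 1) * y := by ring
    rw [h1, abs_mul, abs_of_nonneg (by linarith : (0 : ℝ) ≤ y)]
    calc |rho (k + 1) n - 1| * y ≤ 2 * f / (n : ℝ) ^ (k + 1) * (2 * Y) :=
          mul_le_mul hclose hy2 (by linarith) (by positivity)
      _ = 4 * f * Y / (n : ℝ) ^ (k + 1) := by ring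
      _ ≤ 1 / 40 := by
          rw [div_le_div_iff₀ hnk (by norm_num)]
          linarith
  have c4 := vol_floor hY1 (by norm_num : (0 : ℝ) ≤ 1 / 40) hτ (by norm_num)
  -- the sign
  have hsg : sg (k + 1) n = 1 := by
    by_contra hne
    have hsub : Icc Y (2 * Y) ⊆
        {y : ℝ | y ∈ Icc Y (2 * Y) ∧ FL (rho (k + 1) n * y) ≠ sg (k + 1) n * FL y} ∪
        {y : ℝ | y ∈ Icc Y (2 * Y) ∧ ⌊rho (k + 1) n * y⌋₊ ≠ ⌊y⌋₊} := by
      intro y hy
      by_cases h1 : FL (rho (k + 1) n * y) = sg (k + 1) n * FL y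
      · right
        refine ⟨hy, fun h2 => hne ?_⟩
        unfold FL at h1
        rw [h2] at h1
        exact (mul_eq_right.1 h1.symm)
      · left
        exact ⟨hy, h1⟩
    have h2 := (measure_mono hsub).trans ((measure_union_le _ _).trans (add_le_add c2 c4))
    rw [Real.volume_Icc, ← ENNReal.ofReal_add (by positivity) (by positivity),
      ENNReal.ofReal_le_ofReal_iff (by positivity)] at h2
    linarith
  rw [← hk, sg_two] at hsg
  rw [← hk]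
  calc lam (n + 2 ^ a) = lam (n + 2 ^ a) * (lam n * lam n) := by
        rw [Int.units_mul_self, mul_one]
    _ = lam n := by rw [← mul_assoc, hsg, one_mul]

end Pool.Agent.Helper68.QA
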