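import Mathlib
import Pool.Agent.Helper26.QS.Fin
import Pool.Agent.Helper26.PG.Tot

/-!
# Windows of length `φ(m)` after squares (MP_36c81c_nt)
-/

set_option autoImplicit false

namespace Pool.Agent.Helper68.QA

open Filter Asymptotics

/-- `φ(m) ≥ m ^ (1 - δ)` for large `m` -/
theorem phi_ge (δ : ℝ) (hδ : 0 < δ) : ∃ m0 : ℕ, ∀ m : ℕ, m0 ≤ m →
    (m : ℝ) ^ (1 - δ) ≤ (m.totient : ℝ) := by
  have h1 : Tendsto (fun x : ℝ => (1 + Real.log x / Real.log 2) / x ^ δ) atTop (nhds 0) := by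
    have h2 : (fun x : ℝ => 1 + Real.log x / Real.log 2) =o[atTop] fun x : ℝ => x ^ δ := by
      have h3 : (fun _ : ℝ => (1 : ℝ)) =o[atTop] fun x : ℝ => x ^ δ := by
        rw [isLittleO_const_left]
        right
        exact tendsto_norm_atTop_atTop.comp (tendsto_rpow_atTop hδ)
      have h4 : (fun x : ℝ => Real.log x / Real.log 2) =o[atTop] fun x : ℝ => x ^ δ := by
        have h5 := (isLittleO_log_rpow_atTop hδ).const_mul_left (Real.log 2)⁻¹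
        refine h5.congr_left fun x => ?_
        rw [div_eq_mul_inv, mul_comm]
      exact h3.add h4
    exact h2.tendsto_div_nhds_zero
  have h2 := (h1.comp tendsto_natCast_atTop_atTop).eventually (gt_mem_nhds (zero_lt_one' ℝ))
  obtain ⟨m1, hm1⟩ := eventually_atTop.1 h2
  refine ⟨m1 + 1, fun m hm => ?_⟩
  have h3 := hm1 m (by omega)
  have hm0 : 0 < m := by omega
  have hm' : (0 : ℝ) < m := by exact_mod_cast hm0
  have hp : (0 : ℝ) < (m : ℝ) ^ δ := Real.rpow_pos_of_pos hm' δ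
  simp only [Function.comp] at h3
  rw [div_lt_one hp] at h3
  have h4 := Pool.Agent.Helper26.PG.tot_log m hm0
  have h5 : (Nat.log 2 m : ℝ) ≤ Real.log m / Real.log 2 := by
    have h6 : (2 : ℝ) ^ (Nat.log 2 m) ≤ m := by
      exact_mod_cast Nat.pow_log_le_self 2 hm0.ne'
    rw [le_div_iff₀ (Real.log_pos (by norm_num)), ← Real.log_pow]
    exact Real.log_le_log (by positivity) h6
  have h6 : (1 : ℝ) + Nat.log 2 m ≤ (m : ℝ) ^ δ := by linarith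
  have h7 : (m : ℝ) ≤ m.totient * (m : ℝ) ^ δ :=
    h4.trans (mul_le_mul_of_nonneg_left h6 (Nat.cast_nonneg _))
  rw [Real.rpow_sub hm', Real.rpow_one, div_le_iff₀ hp]
  exact h7

/-- the windows of length `φ(m)` -/
theorem few_phi (ε : ℝ) (hε : 0 < ε) : ∃ C : ℝ, ∀ N : ℕ, 1 ≤ N →
    ({m : ℕ | 1 ≤ m ∧ m ≤ N ∧
      ¬ ((m : ℝ) ^ (1 - ε) ≤ ({z : ℕ | m ^ 2 < z ∧ (z : ℝ) ≤ (m : ℝ) ^ 2 + (m.totient : ℝ) ∧
            Even (ArithmeticFunction.cardFactors z)}.ncard : ℝ) ∧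
        (m : ℝ) ^ (1 - ε) ≤ ({z : ℕ | m ^ 2 < z ∧ (z : ℝ) ≤ (m : ℝ) ^ 2 + (m.totient : ℝ) ∧
            Odd (ArithmeticFunction.cardFactors z)}.ncard : ℝ))}.ncard : ℝ) ≤
      C * (N : ℝ) ^ ε := by
  obtain ⟨C, hC⟩ := Pool.Agent.Helper26.QS.few_windows (ε / 20) ε (by positivity) (by linarith)
  obtain ⟨m0, hm0⟩ := phi_ge (ε / 20) (by positivity)
  refine ⟨C + m0, fun N hN => ?_⟩
  have hfin : ∀ (m : ℕ) (x : ℝ) (P : ℕ → Prop),
      {z : ℕ | m ^ 2 < z ∧ (z : ℝ) ≤ (m : ℝ) ^ 2 + x ∧ P z}.Finite := by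
    intro m x P
    refine (Set.finite_Iic ⌊(m : ℝ) ^ 2 + x⌋₊).subset fun z hz => ?_
    exact Nat.le_floor hz.2.1
  have hmono : ∀ (m : ℕ), m0 ≤ m → ∀ P : ℕ → Prop,
      ({z : ℕ | m ^ 2 < z ∧ (z : ℝ) ≤ (m : ℝ) ^ 2 + (m : ℝ) ^ (1 - ε / 20) ∧ P z}.ncard : ℝ) ≤
      ({z : ℕ | m ^ 2 < z ∧ (z : ℝ) ≤ (m : ℝ) ^ 2 + (m.totient : ℝ) ∧ P z}.ncard : ℝ) := by
    intro m hm P
    rw [Nat.cast_le]
    refine Set.ncard_le_ncard (fun z hz => ?_) (hfin m _ P)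
    exact ⟨hz.1, hz.2.1.trans (by linarith [hm0 m hm]), hz.2.2⟩
  obtain ⟨S, hS⟩ : ∃ S : Set ℕ, S = {m : ℕ | 1 ≤ m ∧ m ≤ N ∧
      ¬ ((m : ℝ) ^ (1 - ε) ≤ ({z : ℕ | m ^ 2 < z ∧
            (z : ℝ) ≤ (m : ℝ) ^ 2 + (m : ℝ) ^ (1 - ε / 20) ∧
            Even (ArithmeticFunction.cardFactors z)}.ncard : ℝ) ∧
        (m : ℝ) ^ (1 - ε) ≤ ({z : ℕ | m ^ 2 < z ∧
            (z : ℝ) ≤ (m : ℝ) ^ 2 + (m : ℝ) ^ (1 - ε / 20) ∧
            Odd (ArithmeticFunction.cardFactors z)}.ncard : ℝ))} := ⟨_, rfl⟩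
  have hSN := hC N hN
  rw [← hS] at hSN
  have hsub : {m : ℕ | 1 ≤ m ∧ m ≤ N ∧
      ¬ ((m : ℝ) ^ (1 - ε) ≤ ({z : ℕ | m ^ 2 < z ∧ (z : ℝ) ≤ (m : ℝ) ^ 2 + (m.totient : ℝ) ∧
            Even (ArithmeticFunction.cardFactors z)}.ncard : ℝ) ∧
        (m : ℝ) ^ (1 - ε) ≤ ({z : ℕ | m ^ 2 < z ∧ (z : ℝ) ≤ (m : ℝ) ^ 2 + (m.totient : ℝ) ∧
            Odd (ArithmeticFunction.cardFactors z)}.ncard : ℝ))} ⊆
      S ∪ (Finset.range m0 : Set ℕ) := by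
    rintro m ⟨h1, h2, h3⟩
    rcases Nat.lt_or_ge m m0 with h4 | h4
    · right
      exact Finset.mem_coe.2 (Finset.mem_range.2 h4)
    · left
      rw [hS]
      refine ⟨h1, h2, fun h5 => h3 ⟨?_, ?_⟩⟩
      · exact h5.1.trans (hmono m h4 _)
      · exact h5.2.trans (hmono m h4 _)
  have hSfin : S.Finite := by
    refine (Set.finite_Iic N).subset fun m hm => ?_
    rw [hS] at hm
    exact hm.2.1
  have h1 := (Set.ncard_le_ncard hsub (hSfin.union (Finset.finite_toSet _))).trans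
    (Set.ncard_union_le _ _)
  rw [Set.ncard_coe_finset, Finset.card_range] at h1
  have hN1 : (1 : ℝ) ≤ (N : ℝ) ^ ε := Real.one_le_rpow (by exact_mod_cast hN) hε.le
  have h2 : ((S.ncard + m0 : ℕ) : ℝ) ≤ (C + m0) * (N : ℝ) ^ ε := by
    push_cast
    have h3 : (m0 : ℝ) ≤ m0 * (N : ℝ) ^ ε := le_mul_of_one_le_right (Nat.cast_nonneg _) hN1
    linarith
  refine le_trans ?_ h2
  exact_mod_cast h1

end Pool.Agent.Helper68.QA
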